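import Mathlib

/-!
Signed `B_h` sets in cyclic groups.
-/

namespace Pool.Agent.SignedBh

/-- `A ⊆ ℤ_n` is a `B_h` set over `ℤ`: distinct integer vectors `l`, `k` indexed by `A` with
`∑ |l a| = ∑ |k a| = h` give distinct elements `∑ l a * a`, `∑ k a * a` of `ℤ_n`. -/
def IsBh (n h : ℕ) (A : Finset (ZMod n)) : Prop :=
  ∀ l k : A → ℤ, ∑ a, |l a| = h → ∑ a, |k a| = h →
    ∑ a : A, (l a : ZMod n) * (a : ZMod n) = ∑ a : A, (k a : ZMod n) * (a : ZMod n) → l = k

/-- the maximal size of a `B_h` set over `ℤ` in `ℤ_n` (for `h ≥ 1` the empty set is one, so the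
value is `0` if there is no nonempty one) -/
noncomputable def sigmaPM (n h : ℕ) : ℕ :=
  sSup {m : ℕ | ∃ A : Finset (ZMod n), A.card = m ∧ IsBh n h A}

end Pool.Agent.SignedBh
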