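import Mathlib
import Pool.Agent.SignedBh.Defs

/-!
Reduction to even vectors of norm at most `2h` in the kernel.
-/

namespace Pool.Agent.SignedBh

open Finset

set_option linter.unusedSectionVars false
set_option linter.unusedSimpArgs false
set_option linter.unusedVariables false

variable {n h : ℕ}

/-- the family `e` has no nonzero relation of even norm at most `2h` -/
def Lat (n h : ℕ) {ι : Type*} [Fintype ι] (e : ι → ZMod n) : Prop :=
  ∀ d : ι → ℤ, Even (∑ i, |d i|) → ∑ i, |d i| ≤ 2 * h → ∑ i, (d i : ZMod n) * e i = 0 → d = 0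

section

variable {ι : Type*} [Fintype ι] [DecidableEq ι]

lemma Lat.injective {e : ι → ZMod n} (he : Lat n h e) (hh : 1 ≤ h) : Function.Injective e := by
  intro i j hij
  by_contra hne
  have hd := he (fun x => if x = i then 1 else if x = j then -1 else 0) ?_ ?_ ?_
  · have := congrFun hd i
    simp at this
  · have : ∑ x, |(if x = i then (1 : ℤ) else if x = j then -1 else 0)| = 2 := by
      have h1 : ∀ x, |(if x = i then (1 : ℤ) else if x = j then -1 else 0)| =
          (if x = i then 1 else 0) + (if x = j then 1 else 0) := by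
        intro x
        by_cases hx : x = i
        · have hx' : x ≠ j := fun h' => hne (hx.symm.trans h')
          simp [hx, hne]
        · by_cases hx' : x = j
          · simp [hx, hx', Ne.symm hne]
          · simp [hx, hx']
      simp only [h1]
      rw [Finset.sum_add_distrib]
      simp
    rw [this]
    exact even_two
  · have : ∑ x, |(if x = i then (1 : ℤ) else if x = j then -1 else 0)| = 2 := by
      have h1 : ∀ x, |(if x = i then (1 : ℤ) else if x = j then -1 else 0)| =
          (if x = i then 1 else 0) + (if x = j then 1 else 0) := by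
        intro x
        by_cases hx : x = i
        · have hx' : x ≠ j := fun h' => hne (hx.symm.trans h')
          simp [hx, hne]
        · by_cases hx' : x = j
          · simp [hx, hx', Ne.symm hne]
          · simp [hx, hx']
      simp only [h1]
      rw [Finset.sum_add_distrib]
      simp
    rw [this]
    exact_mod_cast (by omega : 2 ≤ 2 * h)
  · have h1 : ∀ x, (((if x = i then (1 : ℤ) else if x = j then -1 else 0) : ℤ) : ZMod n) * e x =
        (if x = i then e i else 0) - (if x = j then e j else 0) := by
      intro x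
      by_cases hx : x = i
      · have hx' : x ≠ j := fun h' => hne (hx.symm.trans h')
        subst hx
        simp [hne]
      · by_cases hx' : x = j
        · subst hx'
          simp [hx]
        · simp [hx, hx']
    simp only [h1]
    rw [Finset.sum_sub_distrib]
    simp [hij]

/-- parity of the norm of a difference -/
lemma even_norm_sub {ι : Type*} [Fintype ι] (l k : ι → ℤ) {s : ℤ} (hl : ∑ i, |l i| = s)
    (hk : ∑ i, |k i| = s) : Even (∑ i, |l i - k i|) := by
  have h1 : Even (∑ i, |l i - k i| - (∑ i, |l i| + ∑ i, |k i|)) := by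
    rw [← Finset.sum_add_distrib, ← Finset.sum_sub_distrib]
    refine Finset.even_sum _ (fun i _ => ?_)
    rcases abs_choice (l i - k i) with h1 | h1 <;> rcases abs_choice (l i) with h2 | h2 <;>
      rcases abs_choice (k i) with h3 | h3 <;> rw [h1, h2, h3] <;>
      · rw [Int.even_iff]; omega
  rw [hl, hk] at h1
  have h2 : Even (s + s) := ⟨s, rfl⟩
  have h3 := h1.add h2
  rwa [sub_add_cancel] at h3

lemma norm_sub_le {ι : Type*} [Fintype ι] (l k : ι → ℤ) {s : ℤ} (hl : ∑ i, |l i| = s)
    (hk : ∑ i, |k i| = s) : ∑ i, |l i - k i| ≤ 2 * s := by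
  have h1 : ∑ i, |l i - k i| ≤ ∑ i, (|l i| + |k i|) :=
    Finset.sum_le_sum (fun i _ => abs_sub _ _)
  rw [Finset.sum_add_distrib, hl, hk] at h1
  linarith

/-- from a family to a set -/
lemma Lat.isBh {e : ι → ZMod n} (he : Lat n h e) (hh : 1 ≤ h) :
    IsBh n h (Finset.univ.image e) := by
  classical
  have hinj := he.injective hh
  let E : ι → (Finset.univ.image e : Finset (ZMod n)) :=
    fun i => ⟨e i, Finset.mem_image_of_mem e (Finset.mem_univ i)⟩
  have hE : Function.Bijective E := by
    constructor
    · intro i j hij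
      exact hinj (congrArg Subtype.val hij)
    · rintro ⟨a, ha⟩
      obtain ⟨i, -, hi⟩ := Finset.mem_image.mp ha
      exact ⟨i, Subtype.ext hi⟩
  intro l k hl hk hlk
  have t1 : ∑ i, |l (E i)| = h := by
    rw [← hl]
    exact Fintype.sum_bijective E hE _ _ (fun i => rfl)
  have t2 : ∑ i, |k (E i)| = h := by
    rw [← hk]
    exact Fintype.sum_bijective E hE _ _ (fun i => rfl)
  have t3 : ∑ i, (l (E i) : ZMod n) * e i = ∑ i, (k (E i) : ZMod n) * e i := by
    have a1 : ∑ i, (l (E i) : ZMod n) * e i =
        ∑ a : (Finset.univ.image e : Finset (ZMod n)), (l a : ZMod n) * (a : ZMod n) :=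
      Fintype.sum_bijective E hE _ _ (fun i => rfl)
    have a2 : ∑ i, (k (E i) : ZMod n) * e i =
        ∑ a : (Finset.univ.image e : Finset (ZMod n)), (k a : ZMod n) * (a : ZMod n) :=
      Fintype.sum_bijective E hE _ _ (fun i => rfl)
    rw [a1, a2, hlk]
  have hd := he (fun i => l (E i) - k (E i)) (even_norm_sub _ _ t1 t2) (norm_sub_le _ _ t1 t2) (by
    have : ∀ i, ((l (E i) - k (E i) : ℤ) : ZMod n) * e i =
        (l (E i) : ZMod n) * e i - (k (E i) : ZMod n) * e i := by
      intro i
      push_cast
      ring
    simp only [this]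
    rw [Finset.sum_sub_distrib, t3, sub_self])
  funext a
  obtain ⟨i, rfl⟩ := hE.2 a
  have := congrFun hd i
  simp only [Pi.zero_apply] at this
  linarith

/-- the size of a family bounds `sigmaPM` from below -/
lemma le_sigmaPM (hn : 0 < n) {m : ℕ} {A : Finset (ZMod n)} (hA : IsBh n h A) (hm : A.card = m) :
    m ≤ sigmaPM n h := by
  have : NeZero n := ⟨hn.ne'⟩
  refine le_csSup ⟨n, ?_⟩ ⟨A, hm, hA⟩
  rintro m' ⟨B, hB, -⟩
  rw [← hB]
  have := Finset.card_le_univ B
  rwa [ZMod.card] at this

lemma Lat.le_sigmaPM {e : ι → ZMod n} (he : Lat n h e) (hh : 1 ≤ h) (hn : 0 < n) :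
    Fintype.card ι ≤ sigmaPM n h := by
  refine Pool.Agent.SignedBh.le_sigmaPM hn (he.isBh hh) ?_
  rw [Finset.card_image_of_injective _ (he.injective hh), Finset.card_univ]

lemma exists_max (hn : 0 < n) : ∃ A : Finset (ZMod n), A.card = sigmaPM n h ∧ IsBh n h A := by
  classical
  have : NeZero n := ⟨hn.ne'⟩
  have hne : {m : ℕ | ∃ A : Finset (ZMod n), A.card = m ∧ IsBh n h A}.Nonempty := by
    refine ⟨0, ∅, rfl, ?_⟩
    intro l k _ _ _
    funext a
    exact absurd a.2 (Finset.notMem_empty _)
  have hbdd : BddAbove {m : ℕ | ∃ A : Finset (ZMod n), A.card = m ∧ IsBh n h A} := by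
    refine ⟨n, ?_⟩
    rintro m' ⟨B, hB, -⟩
    rw [← hB]
    have := Finset.card_le_univ B
    rwa [ZMod.card] at this
  exact Nat.sSup_mem hne hbdd

/-- injectivity on vectors of norm `h` for subfamilies of a `B_h` set -/
lemma IsBh.fam {A : Finset (ZMod n)} (hA : IsBh n h A) {E : ι → A} (hE : Function.Injective E)
    {l k : ι → ℤ} (hl : ∑ i, |l i| = h) (hk : ∑ i, |k i| = h)
    (hlk : ∑ i, (l i : ZMod n) * (E i : ZMod n) = ∑ i, (k i : ZMod n) * (E i : ZMod n)) :
    l = k := by
  classical
  have ext_sum : ∀ (l : ι → ℤ), (∑ a : A, |Function.extend E l 0 a| = ∑ i, |l i|) ∧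
      (∑ a : A, ((Function.extend E l 0 a : ℤ) : ZMod n) * (a : ZMod n) =
        ∑ i, (l i : ZMod n) * (E i : ZMod n)) := by
    intro l
    constructor
    · refine (Fintype.sum_of_injective E hE _ _ (fun a ha => ?_) (fun i => ?_)).symm
      · rw [Function.extend_apply' _ _ _ (by simpa using ha)]
        simp
      · rw [hE.extend_apply]
    · refine (Fintype.sum_of_injective E hE _ _ (fun a ha => ?_) (fun i => ?_)).symm
      · rw [Function.extend_apply' _ _ _ (by simpa using ha)]
        simp
      · rw [hE.extend_apply]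
  have h1 := hA (Function.extend E l 0) (Function.extend E k 0)
    (by rw [(ext_sum l).1, hl]) (by rw [(ext_sum k).1, hk])
    (by rw [(ext_sum l).2, (ext_sum k).2, hlk])
  funext i
  have h2 := congrFun h1 (E i)
  rwa [hE.extend_apply, hE.extend_apply] at h2

/-- splitting a vector into two parts of prescribed norms, with at most one split coordinate -/
lemma exists_split (d : ι → ℤ) (S : Finset ι) (hS : S.Nonempty) (t : ℤ) (h0 : 0 ≤ t)
    (ht : t ≤ ∑ i ∈ S, |d i|) : ∃ α : ι → ℤ, ∑ i ∈ S, |α i| = t ∧
      ∑ i ∈ S, |d i - α i| = ∑ i ∈ S, |d i| - t ∧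
      ∃ j ∈ S, ∀ i ∈ S, i ≠ j → α i = 0 ∨ α i = d i := by
  classical
  induction hS using Finset.Nonempty.cons_induction generalizing t with
  | singleton j =>
    rw [Finset.sum_singleton] at ht
    rcases le_total 0 (d j) with hd | hd
    · refine ⟨fun _ => t, ?_, ?_, j, Finset.mem_singleton_self j, ?_⟩
      · rw [Finset.sum_singleton, abs_of_nonneg h0]
      · rw [Finset.sum_singleton, Finset.sum_singleton]
        rw [abs_of_nonneg hd] at ht ⊢
        rw [abs_of_nonneg (by linarith)]
      · intro i hi hij
        exact absurd (Finset.mem_singleton.mp hi) hij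
    · refine ⟨fun _ => -t, ?_, ?_, j, Finset.mem_singleton_self j, ?_⟩
      · rw [Finset.sum_singleton, abs_neg, abs_of_nonneg h0]
      · rw [Finset.sum_singleton, Finset.sum_singleton]
        rw [abs_of_nonpos hd] at ht ⊢
        rw [abs_of_nonpos (by linarith)]
        ring
      · intro i hi hij
        exact absurd (Finset.mem_singleton.mp hi) hij
  | cons j S hj hS ih =>
    rw [Finset.sum_cons] at ht
    by_cases hlt : t ≤ ∑ i ∈ S, |d i|
    · obtain ⟨α, h1, h2, j', hj', h3⟩ := ih t h0 hlt
      refine ⟨Function.update α j 0, ?_, ?_, j', Finset.mem_cons_of_mem hj', ?_⟩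
      · rw [Finset.sum_cons, Function.update_self, abs_zero, zero_add, ← h1]
        refine Finset.sum_congr rfl (fun i hi => ?_)
        rw [Function.update_of_ne (ne_of_mem_of_not_mem hi hj)]
      · rw [Finset.sum_cons, Finset.sum_cons, Function.update_self, sub_zero]
        have : ∑ i ∈ S, |d i - Function.update α j 0 i| = ∑ i ∈ S, |d i - α i| := by
          refine Finset.sum_congr rfl (fun i hi => ?_)
          rw [Function.update_of_ne (ne_of_mem_of_not_mem hi hj)]
        rw [this, h2]
        ring
      · intro i hi hij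
        rcases Finset.mem_cons.mp hi with rfl | hi
        · left; exact Function.update_self _ _ _
        · have hne : i ≠ j := fun h => hj (h ▸ hi)
          rw [Function.update_of_ne hne]
          exact h3 i hi hij
    · push Not at hlt
      obtain ⟨s, hs1, hs2, hs3⟩ : ∃ s : ℤ, |s| = t - ∑ i ∈ S, |d i| ∧
          |d j - s| = |d j| - (t - ∑ i ∈ S, |d i|) ∧ True := by
        rcases le_total 0 (d j) with hd | hd
        · refine ⟨t - ∑ i ∈ S, |d i|, abs_of_nonneg (by linarith), ?_, trivial⟩
          rw [abs_of_nonneg hd] at ht ⊢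
          rw [abs_of_nonneg (by linarith)]
        · refine ⟨-(t - ∑ i ∈ S, |d i|), by rw [abs_neg, abs_of_nonneg (by linarith)], ?_, trivial⟩
          rw [abs_of_nonpos hd] at ht ⊢
          rw [abs_of_nonpos (by linarith)]
          ring
      refine ⟨Function.update d j s, ?_, ?_, j, Finset.mem_cons_self j S, ?_⟩
      · rw [Finset.sum_cons, Function.update_self, hs1]
        have : ∑ i ∈ S, |Function.update d j s i| = ∑ i ∈ S, |d i| := by
          refine Finset.sum_congr rfl (fun i hi => ?_)
          rw [Function.update_of_ne (ne_of_mem_of_not_mem hi hj)]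
        rw [this]
        ring
      · rw [Finset.sum_cons, Finset.sum_cons, Function.update_self, hs2]
        have : ∑ i ∈ S, |d i - Function.update d j s i| = 0 := by
          refine Finset.sum_eq_zero (fun i hi => ?_)
          rw [Function.update_of_ne (ne_of_mem_of_not_mem hi hj), sub_self, abs_zero]
        rw [this]
        ring
      · intro i hi hij
        right
        exact Function.update_of_ne hij _ _

/-- from a set to a family (with at least two members) -/
lemma IsBh.lat [Nontrivial ι] {A : Finset (ZMod n)} (hA : IsBh n h A) {E : ι → A}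
    (hE : Function.Injective E) : Lat n h (fun i => (E i : ZMod n)) := by
  classical
  intro d hev hle hrel
  obtain ⟨k, hk⟩ := hev
  have hk0 : 0 ≤ k := by
    have : 0 ≤ ∑ i, |d i| := Finset.sum_nonneg (fun i _ => abs_nonneg _)
    omega
  obtain ⟨α, h1, h2, j, -, h3⟩ := exists_split d Finset.univ Finset.univ_nonempty k hk0 (by omega)
  obtain ⟨i, hij⟩ := exists_ne j
  -- `s` is the sign to be used at coordinate `i`
  have hc : 0 ≤ (h : ℤ) - k := by omega
  have key : ∃ s : ℤ, |α i + s| = |α i| + (h - k) ∧ |α i - d i + s| = |d i - α i| + (h - k) := by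
    rcases h3 i (Finset.mem_univ i) hij with h4 | h4
    · rw [h4]
      rcases le_total 0 (d i) with hd | hd
      · refine ⟨-((h : ℤ) - k), ?_, ?_⟩
        · rw [zero_add, abs_zero, abs_neg, abs_of_nonneg hc, zero_add]
        · rw [abs_of_nonpos (by linarith), abs_of_nonneg (by linarith)]
          ring
      · refine ⟨(h : ℤ) - k, ?_, ?_⟩
        · rw [zero_add, abs_zero, abs_of_nonneg hc, zero_add]
        · rw [abs_of_nonneg (by linarith), abs_of_nonpos (by linarith)]
          ring
    · rw [h4]
      rcases le_total 0 (d i) with hd | hd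
      · refine ⟨(h : ℤ) - k, ?_, ?_⟩
        · rw [abs_of_nonneg (by linarith), abs_of_nonneg hd]
        · rw [sub_self, zero_add, abs_zero, abs_of_nonneg hc, zero_add]
      · refine ⟨-((h : ℤ) - k), ?_, ?_⟩
        · rw [abs_of_nonpos (by linarith), abs_of_nonpos hd]
          ring
        · rw [sub_self, zero_add, abs_zero, abs_neg, abs_of_nonneg hc, zero_add]
  obtain ⟨s, hs1, hs2⟩ := key
  have upd : ∀ β : ι → ℤ, ∑ x, |Function.update β i (β i + s) x| =
      ∑ x, |β x| + (|β i + s| - |β i|) := by
    intro β
    rw [← Finset.add_sum_erase _ _ (Finset.mem_univ i),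
      ← Finset.add_sum_erase _ (fun x => |β x|) (Finset.mem_univ i), Function.update_self]
    have : ∑ x ∈ Finset.univ.erase i, |Function.update β i (β i + s) x| =
        ∑ x ∈ Finset.univ.erase i, |β x| := by
      refine Finset.sum_congr rfl (fun x hx => ?_)
      rw [Function.update_of_ne (Finset.ne_of_mem_erase hx)]
    rw [this]
    ring
  have hβ : ∑ x, |α x - d x| = k := by
    have : ∑ x, |α x - d x| = ∑ x, |d x - α x| :=
      Finset.sum_congr rfl (fun x _ => abs_sub_comm _ _)
    rw [this, h2]
    omega
  have e1 := upd α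
  have e2 := upd (fun x => α x - d x)
  rw [h1, hs1] at e1
  rw [hβ, hs2, abs_sub_comm (α i) (d i)] at e2
  have hfam := hA.fam hE (l := Function.update α i (α i + s))
    (k := Function.update (fun x => α x - d x) i (α i - d i + s))
    (by rw [e1]; ring) (by rw [e2]; ring) (by
      rw [← sub_eq_zero, ← Finset.sum_sub_distrib, ← hrel]
      refine Finset.sum_congr rfl (fun x _ => ?_)
      by_cases hx : x = i
      · subst hx
        rw [Function.update_self, Function.update_self]
        push_cast
        ring
      · rw [Function.update_of_ne hx, Function.update_of_ne hx]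
        push_cast
        ring)
  funext x
  have hx := congrFun hfam x
  simp only [Pi.zero_apply]
  by_cases hxi : x = i
  · subst hxi
    rw [Function.update_self, Function.update_self] at hx
    linarith
  · rw [Function.update_of_ne hxi, Function.update_of_ne hxi] at hx
    linarith

/-- a family of size `m ≤ sigmaPM n h` -/
lemma exists_fam (hn : 0 < n) {m : ℕ} (hm : m ≤ sigmaPM n h) (h2 : 2 ≤ m) :
    ∃ e : Fin m → ZMod n, Lat n h e := by
  obtain ⟨A, hA1, hA2⟩ := exists_max (h := h) hn
  have hcard : Fintype.card (Fin m) ≤ Fintype.card A := by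
    rw [Fintype.card_fin, Fintype.card_coe, hA1]
    exact hm
  obtain ⟨E⟩ := Function.Embedding.nonempty_of_card_le hcard
  have : Nontrivial (Fin m) := Fin.nontrivial_iff_two_le.mpr h2
  exact ⟨fun i => (E i : ZMod n), hA2.lat E.injective⟩

end

end Pool.Agent.SignedBh
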