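import Mathlib
import Pool.Agent.SignedBh.Basic

/-!
`B_h` sets over `ℤ` with two elements.
-/

namespace Pool.Agent.SignedBh

open Finset

set_option linter.unusedSectionVars false
set_option linter.unusedSimpArgs false
set_option linter.unusedVariables false

variable {n h : ℕ}

/-- no nonzero relation between `p` and `q` with coefficients at most `h` in absolute value -/
def Box (n h : ℕ) (p q : ZMod n) : Prop :=
  ∀ u v : ℤ, |u| ≤ h → |v| ≤ h → (u : ZMod n) * p + (v : ZMod n) * q = 0 → u = 0 ∧ v = 0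

lemma Lat.pair {e : Fin 2 → ZMod n} (he : Lat n h e) {x y : ℤ} (h1 : Even (|x| + |y|))
    (h2 : |x| + |y| ≤ 2 * h) (h3 : (x : ZMod n) * e 0 + (y : ZMod n) * e 1 = 0) :
    x = 0 ∧ y = 0 := by
  have := he ![x, y] (by rw [Fin.sum_univ_two]; simpa using h1)
    (by rw [Fin.sum_univ_two]; simpa using h2) (by rw [Fin.sum_univ_two]; simpa using h3)
  exact ⟨congrFun this 0, congrFun this 1⟩

lemma Lat.box {e : Fin 2 → ZMod n} (he : Lat n h e) : Box n h (e 0 + e 1) (e 0 - e 1) := by
  intro u v hu hv huv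
  rw [abs_le] at hu hv
  have h1 : |u + v| + |u - v| = 2 * max |u| |v| := by
    rcases abs_cases (u + v) with ⟨a, a'⟩ | ⟨a, a'⟩ <;> rcases abs_cases (u - v) with ⟨b, b'⟩ | ⟨b, b'⟩ <;>
      rcases abs_cases u with ⟨c, c'⟩ | ⟨c, c'⟩ <;> rcases abs_cases v with ⟨d, d'⟩ | ⟨d, d'⟩ <;>
      rw [a, b, c, d] <;> rcases max_cases (α := ℤ) (if 0 ≤ u then u else -u) (if 0 ≤ v then v else -v) with _ | _ <;>
      omega
  obtain ⟨h2, h3⟩ := he.pair (x := u + v) (y := u - v) (by rw [h1]; exact even_two_mul _)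
    (by
      rw [h1]
      have : max |u| |v| ≤ (h : ℤ) := max_le (abs_le.mpr hu) (abs_le.mpr hv)
      linarith)
    (by
      rw [← huv]
      push_cast
      ring)
  omega

lemma Box.lat {a b : ZMod n} (hb : Box n h (a + b) (a - b)) : Lat n h ![a, b] := by
  intro d hev hle hrel
  rw [Fin.sum_univ_two] at hev hle hrel
  have hpar : Even (d 0 + d 1) := by
    rcases abs_choice (d 0) with h1 | h1 <;> rcases abs_choice (d 1) with h2 | h2 <;>
      rw [h1, h2] at hev <;> rw [Int.even_iff] at hev ⊢ <;> omega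
  obtain ⟨u, hu⟩ := hpar
  have hv : d 0 - d 1 = 2 * (d 0 - u) := by omega
  obtain ⟨h1, h2⟩ := hb u (d 0 - u) (by
      rw [abs_le]
      rcases abs_cases (d 0) with ⟨a, a'⟩ | ⟨a, a'⟩ <;> rcases abs_cases (d 1) with ⟨b, b'⟩ | ⟨b, b'⟩ <;>
        omega) (by
      rw [abs_le]
      rcases abs_cases (d 0) with ⟨a, a'⟩ | ⟨a, a'⟩ <;> rcases abs_cases (d 1) with ⟨b, b'⟩ | ⟨b, b'⟩ <;>
        omega) (by
      have e1 : ((d 1 : ℤ) : ZMod n) = 2 * (u : ZMod n) - d 0 := by
        have : d 1 = 2 * u - d 0 := by omega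
        rw [this]
        push_cast
        ring
      rw [← hrel]
      simp only [Matrix.cons_val_zero, Matrix.cons_val_one]
      rw [e1]
      push_cast
      ring)
  funext i
  fin_cases i
  · show d 0 = 0
    omega
  · show d 1 = 0
    omega

/-- the packing bound -/
lemma Box.sq_le {p q : ZMod n} (hn : 0 < n) (hb : Box n h p q) : (h + 1) ^ 2 ≤ n := by
  have : NeZero n := ⟨hn.ne'⟩
  let F : Fin (h + 1) × Fin (h + 1) → ZMod n :=
    fun x => ((x.1 : ℕ) : ZMod n) * p + ((x.2 : ℕ) : ZMod n) * q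
  have hF : Function.Injective F := by
    rintro ⟨a, b⟩ ⟨c, d⟩ hxy
    have h0 := hb ((a : ℕ) - (c : ℕ) : ℤ) ((b : ℕ) - (d : ℕ) : ℤ) (by
        rw [abs_le]; have := a.isLt; have := c.isLt; omega) (by
        rw [abs_le]; have := b.isLt; have := d.isLt; omega) (by
        simp only [F] at hxy
        push_cast
        linear_combination hxy)
    refine Prod.ext (Fin.ext ?_) (Fin.ext ?_) <;> simp only <;> omega
  have := Fintype.card_le_of_injective F hF
  rw [Fintype.card_prod, Fintype.card_fin, ZMod.card] at this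
  nlinarith

/-- the element of order two in `ℤ_n` is unique -/
lemma eq_of_two_mul {n : ℕ} (hn : 0 < n) {s t : ZMod n} (hs : 2 * s = 0) (ht : 2 * t = 0)
    (hs0 : s ≠ 0) (ht0 : t ≠ 0) : s = t := by
  have : NeZero n := ⟨hn.ne'⟩
  have key : ∀ z : ZMod n, 2 * z = 0 → z ≠ 0 → 2 * z.val = n := by
    intro z hz hz0
    have h1 : ((2 * z.val : ℕ) : ZMod n) = 0 := by
      push_cast
      rw [ZMod.natCast_zmod_val, hz]
    rw [ZMod.natCast_eq_zero_iff] at h1
    have h2 := ZMod.val_lt z
    have h3 : 0 < z.val := Nat.pos_of_ne_zero (fun h => hz0 ((ZMod.val_eq_zero z).mp h))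
    obtain ⟨k, hk⟩ := h1
    have hk1 : k < 2 := by
      by_contra hk2
      push Not at hk2
      have : n * 2 ≤ n * k := Nat.mul_le_mul_left n hk2
      omega
    have hk2 : 0 < k := by
      rcases Nat.eq_zero_or_pos k with h | h
      · subst h; omega
      · exact h
    have : k = 1 := by omega
    subst this
    omega
  refine ZMod.val_injective n ?_
  have := key s hs hs0
  have := key t ht ht0
  omega

/-- the sharper bound for even `n` and odd `h` -/
lemma Box.even_odd {a b : ZMod n} (hn : 0 < n) (hb : Box n h (a + b) (a - b)) (hne : Even n)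
    (hho : Odd h) : (h + 1) * (h + 2) ≤ n := by
  have : NeZero n := ⟨hn.ne'⟩
  have hdvd : 2 ∣ n := hne.two_dvd
  let π := ZMod.castHom hdvd (ZMod 2)
  have hπ : π (a + b) = π (a - b) := by
    rw [map_add, map_sub, sub_eq_add_neg]
    congr 1
    generalize π b = z
    revert z
    decide
  obtain ⟨r, hr⟩ := hho
  by_contra hlt
  push Not at hlt
  -- `r'` is half of `h + 1`
  by_cases hp : π (a + b) = 0
  · -- both even
    have hq : π (a - b) = 0 := by rw [← hπ]; exact hp
    let F : (Fin (h + 1) × Fin (h + 1)) × Fin 2 → ZMod n :=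
      fun x => ((x.1.1 : ℕ) : ZMod n) * (a + b) + ((x.1.2 : ℕ) : ZMod n) * (a - b) +
        ((x.2 : ℕ) : ZMod n)
    have hF : Function.Injective F := by
      rintro ⟨⟨i, j⟩, k⟩ ⟨⟨i', j'⟩, k'⟩ hxy
      simp only [F] at hxy
      have h1 := congrArg π hxy
      rw [map_add, map_add, map_add, map_add, map_mul, map_mul, map_mul, map_mul, hp, hq] at h1
      simp only [mul_zero, zero_add, map_natCast] at h1
      have hk : k = k' := by
        rw [ZMod.natCast_eq_natCast_iff'] at h1
        refine Fin.ext ?_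
        have := k.isLt
        have := k'.isLt
        omega
      subst hk
      have h0 := hb ((i : ℕ) - (i' : ℕ) : ℤ) ((j : ℕ) - (j' : ℕ) : ℤ) (by
          rw [abs_le]; have := i.isLt; have := i'.isLt; omega) (by
          rw [abs_le]; have := j.isLt; have := j'.isLt; omega) (by
          push_cast
          linear_combination hxy)
      refine Prod.ext (Prod.ext (Fin.ext ?_) (Fin.ext ?_)) rfl <;> simp only <;> omega
    have := Fintype.card_le_of_injective F hF
    rw [Fintype.card_prod, Fintype.card_prod, Fintype.card_fin, Fintype.card_fin, ZMod.card] at this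
    nlinarith
  · -- both odd
    have one_of : ∀ z : ZMod 2, z ≠ 0 → z = 1 := by decide
    have hp1 : π (a + b) = 1 := one_of _ hp
    have hq1 : π (a - b) = 1 := by rw [← hπ]; exact hp1
    -- parity of relations
    have hpar : ∀ u v : ℤ, (u : ZMod n) * (a + b) + (v : ZMod n) * (a - b) = 0 → Even (u + v) := by
      intro u v huv
      have h1 := congrArg π huv
      rw [map_add, map_mul, map_mul, hp1, hq1, map_zero, map_intCast, map_intCast, mul_one,
        mul_one] at h1
      have h2 : ((u + v : ℤ) : ZMod 2) = 0 := by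
        push_cast
        exact h1
      rw [ZMod.intCast_zmod_eq_zero_iff_dvd] at h2
      exact (even_iff_two_dvd).mpr (by exact_mod_cast h2)
    -- pigeonhole
    have pig : ∀ p q : ZMod n, Box n h p q → ∃ x : ℤ, |x| ≤ h ∧
        (x : ZMod n) * p + ((h + 1 : ℤ) : ZMod n) * q = 0 := by
      intro p q hpq
      let F : Fin (h + 1) × Fin (h + 2) → ZMod n :=
        fun x => ((x.1 : ℕ) : ZMod n) * p + ((x.2 : ℕ) : ZMod n) * q
      have hnot : ¬ Function.Injective F := by
        intro hF
        have := Fintype.card_le_of_injective F hF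
        rw [Fintype.card_prod, Fintype.card_fin, Fintype.card_fin, ZMod.card] at this
        omega
      unfold Function.Injective at hnot
      push Not at hnot
      obtain ⟨⟨i, j⟩, ⟨i', j'⟩, hxy, hne'⟩ := hnot
      simp only [F] at hxy
      have hi := i.isLt
      have hi' := i'.isLt
      have hj := j.isLt
      have hj' := j'.isLt
      have hrel : (((i : ℕ) - (i' : ℕ) : ℤ) : ZMod n) * p + (((j : ℕ) - (j' : ℕ) : ℤ) : ZMod n) * q
          = 0 := by
        push_cast
        linear_combination hxy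
      have habs : ¬ |((j : ℕ) - (j' : ℕ) : ℤ)| ≤ h := by
        intro hle
        obtain ⟨h1, h2⟩ := hpq _ _ (by rw [abs_le]; omega) hle hrel
        apply hne'
        refine Prod.ext (Fin.ext ?_) (Fin.ext ?_) <;> simp only <;> omega
      have hcases : ((j : ℕ) - (j' : ℕ) : ℤ) = h + 1 ∨ ((j : ℕ) - (j' : ℕ) : ℤ) = -(h + 1) := by
        rw [abs_le] at habs
        omega
      rcases hcases with hc | hc
      · refine ⟨(i : ℕ) - (i' : ℕ), by rw [abs_le]; omega, ?_⟩
        rw [hc] at hrel
        exact hrel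
      · refine ⟨-((i : ℕ) - (i' : ℕ)), by rw [abs_neg, abs_le]; omega, ?_⟩
        rw [hc] at hrel
        push_cast at hrel ⊢
        linear_combination (-1) * hrel
    obtain ⟨x, hx, hx'⟩ := pig _ _ hb
    have hb' : Box n h (a - b) (a + b) := by
      intro u v hu hv huv
      obtain ⟨h1, h2⟩ := hb v u hv hu (by rw [add_comm]; exact huv)
      exact ⟨h2, h1⟩
    obtain ⟨y, hy, hy'⟩ := pig _ _ hb'
    have hxe : Even (x + (h + 1)) := hpar _ _ (by exact_mod_cast hx')
    have hye : Even ((h + 1) + y) := hpar _ _ (by rw [add_comm]; exact_mod_cast hy')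
    rw [abs_le] at hx hy
    obtain ⟨x', hx2⟩ : ∃ x', x = 2 * x' := by
      rw [Int.even_iff] at hxe
      exact ⟨x / 2, by omega⟩
    obtain ⟨y', hy2⟩ : ∃ y', y = 2 * y' := by
      rw [Int.even_iff] at hye
      exact ⟨y / 2, by omega⟩
    have hh2 : ((h : ℤ) + 1) = 2 * (r + 1) := by rw [hr]; push_cast; ring
    have hh3 : ((h + 1 : ℤ) : ZMod n) = 2 * ((r + 1 : ℤ) : ZMod n) := by
      rw [hh2]; push_cast; ring
    rw [hh3, hx2] at hx'
    rw [hh3, hy2] at hy'
    push_cast at hx' hy'
    -- the two elements of order two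
    have hs : 2 * ((x' : ZMod n) * (a + b) + ((r + 1 : ℤ) : ZMod n) * (a - b)) = 0 := by
      rw [← hx']; push_cast; ring
    have ht : 2 * (((r + 1 : ℤ) : ZMod n) * (a + b) + (y' : ZMod n) * (a - b)) = 0 := by
      rw [← hy']; push_cast; ring
    have hs0 : (x' : ZMod n) * (a + b) + ((r + 1 : ℤ) : ZMod n) * (a - b) ≠ 0 := by
      intro h0
      obtain ⟨-, h2⟩ := hb x' (r + 1) (by rw [abs_le]; omega) (by rw [abs_le]; omega) h0
      omega
    have ht0 : ((r + 1 : ℤ) : ZMod n) * (a + b) + (y' : ZMod n) * (a - b) ≠ 0 := by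
      intro h0
      obtain ⟨h2, -⟩ := hb (r + 1) y' (by rw [abs_le]; omega) (by rw [abs_le]; omega) h0
      omega
    have heq := eq_of_two_mul hn hs ht hs0 ht0
    obtain ⟨h1, -⟩ := hb (x' - (r + 1)) ((r + 1) - y') (by rw [abs_le]; omega)
      (by rw [abs_le]; omega) (by push_cast at heq ⊢; linear_combination heq)
    omega

/-- a sufficient condition -/
lemma box_of {q : ℤ} (hq : (h : ℤ) < q) (hnq : (h : ℤ) + h * q < n) : Box n h 1 (q : ZMod n) := by
  intro u v hu hv huv
  rw [mul_one] at huv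
  have h1 : ((u + v * q : ℤ) : ZMod n) = 0 := by
    push_cast
    exact huv
  rw [ZMod.intCast_zmod_eq_zero_iff_dvd] at h1
  have hq0 : 0 < q := by
    have : (0 : ℤ) ≤ h := Int.natCast_nonneg h
    linarith
  have h2 : |u + v * q| < n := by
    calc |u + v * q| ≤ |u| + |v * q| := abs_add_le _ _
      _ = |u| + |v| * q := by rw [abs_mul, abs_of_pos hq0]
      _ ≤ h + h * q := by nlinarith
      _ < n := hnq
  have h3 := Int.eq_zero_of_abs_lt_dvd h1 h2
  have hv0 : v = 0 := by
    by_contra hv0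
    have h4 : 1 ≤ |v| := Int.one_le_abs hv0
    have h5 : |u| = |v| * q := by
      have : u = -(v * q) := by linarith
      rw [this, abs_neg, abs_mul, abs_of_pos hq0]
    nlinarith
  subst hv0
  exact ⟨by linarith, rfl⟩

/-- the condition for two elements -/
def Cond (n h : ℕ) : Prop := (h + 1) ^ 2 ≤ n ∧ (Odd n ∨ Even h ∨ (h + 1) * (h + 2) ≤ n)

theorem two_le_iff (hn : 0 < n) (hh : 1 ≤ h) : 2 ≤ sigmaPM n h ↔ Cond n h := by
  constructor
  · intro h2
    obtain ⟨e, he⟩ := exists_fam hn h2 (le_refl 2)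
    have hb := he.box
    refine ⟨hb.sq_le hn, ?_⟩
    rcases Nat.even_or_odd n with h3 | h3
    · rcases Nat.even_or_odd h with h4 | h4
      · exact Or.inr (Or.inl h4)
      · exact Or.inr (Or.inr (hb.even_odd hn h3 h4))
    · exact Or.inl h3
  · rintro ⟨h1, h2⟩
    have main : ∀ a b : ZMod n, Box n h (a + b) (a - b) → 2 ≤ sigmaPM n h := by
      intro a b hb
      have := hb.lat.le_sigmaPM hh hn
      rwa [Fintype.card_fin] at this
    rcases Nat.even_or_odd h with h4 | h4
    · -- `h` even
      obtain ⟨r, hr⟩ := h4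
      refine main ((r + 1 : ℤ) : ZMod n) ((-r : ℤ) : ZMod n) ?_
      have e1 : ((r + 1 : ℤ) : ZMod n) + ((-r : ℤ) : ZMod n) = 1 := by push_cast; ring
      have e2 : ((r + 1 : ℤ) : ZMod n) - ((-r : ℤ) : ZMod n) = ((h + 1 : ℤ) : ZMod n) := by
        rw [hr]; push_cast; ring
      rw [e1, e2]
      refine box_of (by linarith) ?_
      have : ((h : ℤ) + 1) ^ 2 ≤ n := by exact_mod_cast h1
      nlinarith
    · obtain ⟨r, hr⟩ := h4
      by_cases h5 : (h + 1) * (h + 2) ≤ n
      · refine main ((r + 2 : ℤ) : ZMod n) ((-(r + 1) : ℤ) : ZMod n) ?_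
        have e1 : ((r + 2 : ℤ) : ZMod n) + ((-(r + 1) : ℤ) : ZMod n) = 1 := by push_cast; ring
        have e2 : ((r + 2 : ℤ) : ZMod n) - ((-(r + 1) : ℤ) : ZMod n) = ((h + 2 : ℤ) : ZMod n) := by
          rw [hr]; push_cast; ring
        rw [e1, e2]
        refine box_of (by linarith) ?_
        have : ((h : ℤ) + 1) * (h + 2) ≤ n := by exact_mod_cast h5
        nlinarith
      · have h6 : Odd n := by
          rcases h2 with h2 | h2 | h2
          · exact h2
          · exfalso
            rw [Nat.even_iff] at h2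
            omega
          · exact absurd h2 h5
        obtain ⟨s, hs⟩ := h6
        refine main ((s + 1 + r + 1 : ℤ) : ZMod n) ((s - r : ℤ) : ZMod n) ?_
        have hn0 : ((2 * s + 1 : ℤ) : ZMod n) = 0 := by
          have : ((2 * s + 1 : ℤ)) = ((n : ℕ) : ℤ) := by rw [hs]; push_cast; ring
          rw [this]
          simp
        have e1 : ((s + 1 + r + 1 : ℤ) : ZMod n) + ((s - r : ℤ) : ZMod n) = 1 := by
          have : ((s + 1 + r + 1 : ℤ) : ZMod n) + ((s - r : ℤ) : ZMod n) =
              ((2 * s + 1 : ℤ) : ZMod n) + 1 := by push_cast; ring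
          rw [this, hn0, zero_add]
        have e2 : ((s + 1 + r + 1 : ℤ) : ZMod n) - ((s - r : ℤ) : ZMod n) =
            ((h + 1 : ℤ) : ZMod n) := by
          rw [hr]; push_cast; ring
        rw [e1, e2]
        refine box_of (by linarith) ?_
        have : ((h : ℤ) + 1) ^ 2 ≤ n := by exact_mod_cast h1
        nlinarith

end Pool.Agent.SignedBh
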