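import Mathlib
import Pool.Agent.SignedBh.Two

/-!
Packing bounds, and the exact value for small `n`.
-/

namespace Pool.Agent.SignedBh

open Finset

set_option linter.unusedSectionVars false
set_option linter.unusedSimpArgs false
set_option linter.unusedVariables false

variable {n h : ℕ}

/-- vectors of norm at most `h` and of the parity of `h` have distinct images -/
lemma Lat.inj {ι : Type*} [Fintype ι] {e : ι → ZMod n} (he : Lat n h e) {v w : ι → ℤ}
    (hv : ∑ i, |v i| ≤ h) (hw : ∑ i, |w i| ≤ h) (hvw : Even (∑ i, |v i| + ∑ i, |w i|))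
    (heq : ∑ i, (v i : ZMod n) * e i = ∑ i, (w i : ZMod n) * e i) : v = w := by
  have h1 : Even (∑ i, |v i - w i| - (∑ i, |v i| + ∑ i, |w i|)) := by
    rw [← Finset.sum_add_distrib, ← Finset.sum_sub_distrib]
    refine Finset.even_sum _ (fun i _ => ?_)
    rcases abs_choice (v i - w i) with h1 | h1 <;> rcases abs_choice (v i) with h2 | h2 <;>
      rcases abs_choice (w i) with h3 | h3 <;> rw [h1, h2, h3] <;>
      · rw [Int.even_iff]; omega
  have h2 : Even (∑ i, |v i - w i|) := by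
    have := h1.add hvw
    rwa [sub_add_cancel] at this
  have h3 : ∑ i, |v i - w i| ≤ 2 * h := by
    have : ∑ i, |v i - w i| ≤ ∑ i, (|v i| + |w i|) := Finset.sum_le_sum (fun i _ => abs_sub _ _)
    rw [Finset.sum_add_distrib] at this
    linarith
  have h4 := he (fun i => v i - w i) h2 h3 (by
    have : ∀ i, ((v i - w i : ℤ) : ZMod n) * e i =
        (v i : ZMod n) * e i - (w i : ZMod n) * e i := by
      intro i
      push_cast
      ring
    simp only [this]
    rw [Finset.sum_sub_distrib, heq, sub_self])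
  funext i
  have := congrFun h4 i
  simp only [Pi.zero_apply] at this
  linarith

/-- the index type for the points of the octahedron of radius `h` and parity `h` -/
abbrev Oct (h : ℕ) := (Fin (h + 1) × Fin (h + 1)) ⊕ (Σ j : Fin h, (Fin (j + 1) × Fin (j + 1)) × Bool)

/-- the points of the octahedron -/
def octPt (h : ℕ) : Oct h → Fin 3 → ℤ
  | Sum.inl x => ![(x.1 : ℤ) + (x.2 : ℤ) - h, (x.1 : ℤ) - (x.2 : ℤ), 0]
  | Sum.inr ⟨j, x, b⟩ => ![(x.1 : ℤ) + (x.2 : ℤ) - (j : ℤ), (x.1 : ℤ) - (x.2 : ℤ),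
      if b then (h : ℤ) - (j : ℤ) else (j : ℤ) - (h : ℤ)]

lemma octPt_inl (i j : Fin (h + 1)) : octPt h (Sum.inl (i, j)) 0 = (i : ℤ) + (j : ℤ) - h ∧
    octPt h (Sum.inl (i, j)) 1 = (i : ℤ) - (j : ℤ) ∧ octPt h (Sum.inl (i, j)) 2 = 0 :=
  ⟨rfl, rfl, rfl⟩

lemma octPt_inr (k : Fin h) (i j : Fin (k + 1)) (b : Bool) :
    octPt h (Sum.inr ⟨k, (i, j), b⟩) 0 = (i : ℤ) + (j : ℤ) - (k : ℤ) ∧
    octPt h (Sum.inr ⟨k, (i, j), b⟩) 1 = (i : ℤ) - (j : ℤ) ∧
    octPt h (Sum.inr ⟨k, (i, j), b⟩) 2 = if b then (h : ℤ) - (k : ℤ) else (k : ℤ) - (h : ℤ) :=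
  ⟨rfl, rfl, rfl⟩

lemma octPt_norm (x : Oct h) : ∑ i, |octPt h x i| ≤ h ∧ Even (∑ i, |octPt h x i| + h) := by
  rw [Fin.sum_univ_three]
  rcases x with ⟨i, j⟩ | ⟨k, ⟨i, j⟩, b⟩
  · have hi := i.isLt
    have hj := j.isLt
    obtain ⟨e0, e1, e2⟩ := octPt_inl i j
    rw [e0, e1, e2, abs_zero, Int.even_iff]
    rcases abs_cases ((i : ℤ) + (j : ℤ) - h) with ⟨a, a'⟩ | ⟨a, a'⟩ <;>
      rcases abs_cases ((i : ℤ) - (j : ℤ)) with ⟨b, b'⟩ | ⟨b, b'⟩ <;> rw [a, b] <;> omega
  · have hi := i.isLt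
    have hj := j.isLt
    have hk := k.isLt
    obtain ⟨e0, e1, e2⟩ := octPt_inr k i j b
    have e3 : |octPt h (Sum.inr ⟨k, (i, j), b⟩) 2| = (h : ℤ) - (k : ℤ) := by
      rw [e2]
      cases b
      · simp only [Bool.false_eq_true, if_false]
        rw [abs_of_nonpos (by omega)]
        omega
      · simp only [if_true]
        rw [abs_of_nonneg (by omega)]
    rw [e0, e1, e3, Int.even_iff]
    rcases abs_cases ((i : ℤ) + (j : ℤ) - (k : ℤ)) with ⟨a, a'⟩ | ⟨a, a'⟩ <;>
      rcases abs_cases ((i : ℤ) - (j : ℤ)) with ⟨c, c'⟩ | ⟨c, c'⟩ <;> rw [a, c] <;> omega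

lemma octPt_inj : Function.Injective (octPt h) := by
  intro x y hxy
  have h0 := congrFun hxy 0
  have h1 := congrFun hxy 1
  have h2 := congrFun hxy 2
  rcases x with ⟨i, j⟩ | ⟨k, ⟨i, j⟩, b⟩ <;> rcases y with ⟨i', j'⟩ | ⟨k', ⟨i', j'⟩, b'⟩
  · obtain ⟨e0, e1, e2⟩ := octPt_inl i j
    obtain ⟨f0, f1, f2⟩ := octPt_inl i' j'
    rw [e0, f0] at h0
    rw [e1, f1] at h1
    have e1 : i = i' := Fin.ext (by omega)
    have e2 : j = j' := Fin.ext (by omega)
    rw [e1, e2]
  · exfalso
    have hk := k'.isLt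
    obtain ⟨e0, e1, e2⟩ := octPt_inl i j
    obtain ⟨f0, f1, f2⟩ := octPt_inr k' i' j' b'
    rw [e2, f2] at h2
    cases b' <;> simp only [Bool.false_eq_true, if_false, if_true] at h2 <;> omega
  · exfalso
    have hk := k.isLt
    obtain ⟨e0, e1, e2⟩ := octPt_inr k i j b
    obtain ⟨f0, f1, f2⟩ := octPt_inl i' j'
    rw [e2, f2] at h2
    cases b <;> simp only [Bool.false_eq_true, if_false, if_true] at h2 <;> omega
  · have hk := k.isLt
    have hk' := k'.isLt
    obtain ⟨e0, e1, e2⟩ := octPt_inr k i j b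
    obtain ⟨f0, f1, f2⟩ := octPt_inr k' i' j' b'
    rw [e0, f0] at h0
    rw [e1, f1] at h1
    rw [e2, f2] at h2
    have hb : b = b' := by
      cases b <;> cases b' <;> simp only [Bool.false_eq_true, if_false, if_true] at h2 <;>
        first | rfl | omega
    subst hb
    have hkk : k = k' := by
      refine Fin.ext ?_
      cases b <;> simp only [Bool.false_eq_true, if_false, if_true] at h2 <;> omega
    subst hkk
    have e1 : i = i' := Fin.ext (by omega)
    have e2 : j = j' := Fin.ext (by omega)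
    rw [e1, e2]

lemma card_oct (h : ℕ) : 3 * Fintype.card (Oct h) = (h + 1) * (2 * h ^ 2 + 4 * h + 3) := by
  have h1 : Fintype.card (Oct h) = (h + 1) ^ 2 + ∑ j ∈ Finset.range h, 2 * (j + 1) ^ 2 := by
    rw [Fintype.card_sum, Fintype.card_sigma, Fintype.card_prod, Fintype.card_fin]
    congr 1
    · ring
    · rw [← Fin.sum_univ_eq_sum_range (fun j => 2 * (j + 1) ^ 2) h]
      refine Finset.sum_congr rfl (fun j _ => ?_)
      rw [Fintype.card_prod, Fintype.card_prod, Fintype.card_fin, Fintype.card_bool]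
      ring
  have h2 : 3 * ∑ j ∈ Finset.range h, 2 * (j + 1) ^ 2 = h * (h + 1) * (2 * h + 1) := by
    induction h with
    | zero => simp
    | succ h ih =>
      rw [Finset.sum_range_succ, mul_add, ih (by
        rw [Fintype.card_sum, Fintype.card_sigma, Fintype.card_prod, Fintype.card_fin]
        congr 1
        · ring
        · rw [← Fin.sum_univ_eq_sum_range (fun j => 2 * (j + 1) ^ 2) h]
          refine Finset.sum_congr rfl (fun j _ => ?_)
          rw [Fintype.card_prod, Fintype.card_prod, Fintype.card_fin, Fintype.card_bool]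
          ring)]
      ring
  rw [h1, mul_add, h2]
  ring

/-- the packing bound for three elements -/
theorem three_le (hn : 0 < n) (h3 : 3 ≤ sigmaPM n h) :
    (h + 1) * (2 * h ^ 2 + 4 * h + 3) ≤ 3 * n := by
  have : NeZero n := ⟨hn.ne'⟩
  obtain ⟨e, he⟩ := exists_fam hn h3 (by norm_num)
  have hinj : Function.Injective (fun x : Oct h => ∑ i, (octPt h x i : ZMod n) * e i) := by
    intro x y hxy
    apply octPt_inj
    refine he.inj (octPt_norm x).1 (octPt_norm y).1 ?_ hxy
    have h1 := (octPt_norm x).2.add (octPt_norm y).2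
    rw [Int.even_iff] at h1 ⊢
    omega
  have h1 := Fintype.card_le_of_injective _ hinj
  rw [ZMod.card] at h1
  rw [← card_oct]
  omega

/-- one element -/
theorem one_le_iff (hn : 0 < n) (hh : 1 ≤ h) : 1 ≤ sigmaPM n h ↔ ¬ n ∣ 2 * h := by
  classical
  have : NeZero n := ⟨hn.ne'⟩
  constructor
  · intro h1 hdvd
    obtain ⟨A, hA1, hA2⟩ := exists_max (h := h) hn
    have hcard : Fintype.card (Fin 1) ≤ Fintype.card A := by
      rw [Fintype.card_fin, Fintype.card_coe, hA1]
      exact h1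
    obtain ⟨E⟩ := Function.Embedding.nonempty_of_card_le hcard
    have h2 := hA2.fam E.injective (l := fun _ => (h : ℤ)) (k := fun _ => -(h : ℤ))
      (by rw [Fin.sum_univ_one]; simp) (by rw [Fin.sum_univ_one]; simp) (by
        rw [Fin.sum_univ_one, Fin.sum_univ_one]
        have h3 : ((2 * h : ℕ) : ZMod n) = 0 := (ZMod.natCast_eq_zero_iff _ _).mpr hdvd
        push_cast at h3 ⊢
        linear_combination (E 0 : ZMod n) * h3)
    have h3 := congrFun h2 0
    have h4 : (h : ℤ) = -(h : ℤ) := h3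
    omega
  · intro hdvd
    refine Pool.Agent.SignedBh.le_sigmaPM hn (A := {1}) ?_ (Finset.card_singleton _)
    intro l k hl hk hlk
    let s : (({1} : Finset (ZMod n))) := ⟨1, Finset.mem_singleton_self 1⟩
    have hs : ∀ a : (({1} : Finset (ZMod n))), a = s := by
      rintro ⟨a, ha⟩
      exact Subtype.ext (Finset.mem_singleton.mp ha)
    have hsum : ∀ F : (({1} : Finset (ZMod n))) → ℤ, ∑ a, F a = F s := by
      intro F
      exact Fintype.sum_eq_single s (fun a ha => absurd (hs a) ha)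
    have hsum' : ∀ F : (({1} : Finset (ZMod n))) → ZMod n, ∑ a, F a = F s := by
      intro F
      exact Fintype.sum_eq_single s (fun a ha => absurd (hs a) ha)
    rw [hsum] at hl hk
    rw [hsum', hsum'] at hlk
    have hlk' : ((l s - k s : ℤ) : ZMod n) = 0 := by
      push_cast
      have : (s : ZMod n) = 1 := rfl
      rw [this, mul_one, mul_one] at hlk
      rw [hlk, sub_self]
    rw [ZMod.intCast_zmod_eq_zero_iff_dvd] at hlk'
    have key : l s = k s := by
      by_contra hne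
      have h1 : l s - k s = 2 * h ∨ l s - k s = -(2 * h) := by
        rcases abs_choice (l s) with a | a <;> rcases abs_choice (k s) with b | b <;>
          rw [a] at hl <;> rw [b] at hk <;> omega
      have h2 : (n : ℤ) ∣ 2 * h := by
        rcases h1 with h1 | h1
        · rwa [h1] at hlk'
        · rw [h1] at hlk'
          exact (dvd_neg).mp hlk'
      exact hdvd (by exact_mod_cast h2)
    funext a
    rw [hs a, key]

/-- **Exact value** for `n < (h + 1) (2 h ^ 2 + 4 h + 3) / 3`, and `sigmaPM n h ≥ 2` for all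
larger `n`. -/
theorem exact_value (hn : 0 < n) (hh : 1 ≤ h) :
    (3 * n < (h + 1) * (2 * h ^ 2 + 4 * h + 3) →
      (n ∣ 2 * h → sigmaPM n h = 0) ∧
      (¬ n ∣ 2 * h → ¬ Cond n h → sigmaPM n h = 1) ∧
      (Cond n h → sigmaPM n h = 2)) ∧
    ((h + 1) * (2 * h ^ 2 + 4 * h + 3) ≤ 3 * n → 2 ≤ sigmaPM n h) := by
  constructor
  · intro hlt
    have h3 : ¬ 3 ≤ sigmaPM n h := fun h' => by
      have := three_le hn h'
      omega
    refine ⟨fun h1 => ?_, fun h1 h2 => ?_, fun h1 => ?_⟩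
    · by_contra h0
      exact (one_le_iff hn hh).mp (Nat.pos_of_ne_zero h0) h1
    · have a1 := (one_le_iff hn hh).mpr h1
      have a2 : ¬ 2 ≤ sigmaPM n h := fun h' => h2 ((two_le_iff hn hh).mp h')
      omega
    · have a2 := (two_le_iff hn hh).mpr h1
      omega
  · intro hle
    refine (two_le_iff hn hh).mpr ⟨?_, Or.inr (Or.inr ?_)⟩
    · have : 3 * (h + 1) ^ 2 ≤ (h + 1) * (2 * h ^ 2 + 4 * h + 3) := by
        have : (h + 1) * (3 * (h + 1)) ≤ (h + 1) * (2 * h ^ 2 + 4 * h + 3) :=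
          Nat.mul_le_mul_left _ (by nlinarith)
        nlinarith
      omega
    · have : 3 * ((h + 1) * (h + 2)) ≤ (h + 1) * (2 * h ^ 2 + 4 * h + 3) := by
        have : (h + 1) * (3 * (h + 2)) ≤ (h + 1) * (2 * h ^ 2 + 4 * h + 3) :=
          Nat.mul_le_mul_left _ (by nlinarith)
        nlinarith
      omega

end Pool.Agent.SignedBh
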