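import Mathlib
import Pool.Agent.SignedBh.Three

/-!
A signed analogue of the Bose–Chowla construction: large `B_h` sets over `ℤ` in `ℤ_{q^h + 1}`.
-/

namespace Pool.Agent.SignedBh

open Finset Polynomial

set_option linter.unusedSectionVars false
set_option linter.unusedSimpArgs false
set_option linter.unusedVariables false

section Poly

variable {F : Type*} [Field F]

open Classical in
/-- the factor belonging to `a` and the exponent `d` -/
noncomputable def fac (a : F) (d : ℤ) : F[X] :=
  if 0 ≤ d then (C a + X) ^ d.natAbs else (C a - X) ^ d.natAbs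

lemma natDegree_fac_le (a : F) (d : ℤ) : (fac a d).natDegree ≤ d.natAbs := by
  unfold fac
  have h1 : (C a + X : F[X]).natDegree ≤ 1 := by
    refine (natDegree_add_le _ _).trans ?_
    rw [natDegree_C, natDegree_X]
    exact max_le (Nat.zero_le 1) (le_refl 1)
  have h2 : (C a - X : F[X]).natDegree ≤ 1 := by
    refine (natDegree_sub_le _ _).trans ?_
    rw [natDegree_C, natDegree_X]
    exact max_le (Nat.zero_le 1) (le_refl 1)
  split_ifs
  · refine natDegree_pow_le.trans ?_
    calc d.natAbs * (C a + X : F[X]).natDegree ≤ d.natAbs * 1 := Nat.mul_le_mul_left _ h1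
      _ = d.natAbs := by ring
  · refine natDegree_pow_le.trans ?_
    calc d.natAbs * (C a - X : F[X]).natDegree ≤ d.natAbs * 1 := Nat.mul_le_mul_left _ h2
      _ = d.natAbs := by ring

lemma eval_fac_eq_zero {a x : F} {d : ℤ} (h : (fac a d).eval x = 0) :
    (0 < d ∧ a + x = 0) ∨ (d < 0 ∧ a - x = 0) := by
  unfold fac at h
  split_ifs at h with hd
  · left
    rw [eval_pow, eval_add, eval_C, eval_X] at h
    have hne : d ≠ 0 := by
      rintro rfl
      simp at h
    exact ⟨lt_of_le_of_ne hd (Ne.symm hne), (pow_eq_zero_iff (by omega)).mp h⟩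
  · right
    rw [eval_pow, eval_sub, eval_C, eval_X] at h
    exact ⟨by omega, (pow_eq_zero_iff (by omega)).mp h⟩

lemma eval_fac_of_pos {a : F} {d : ℤ} (hd : 0 < d) : (fac a d).eval (-a) = 0 := by
  unfold fac
  rw [if_pos hd.le, eval_pow, eval_add, eval_C, eval_X, add_neg_cancel]
  exact zero_pow (by omega)

lemma eval_fac_of_neg {a : F} {d : ℤ} (hd : d < 0) : (fac a d).eval a = 0 := by
  unfold fac
  rw [if_neg (by omega), eval_pow, eval_sub, eval_C, eval_X, sub_self]
  exact zero_pow (by omega)

variable {K : Type*} [Field K] [Algebra F K]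

lemma aeval_fac (a : F) (d : ℤ) {θ : K} (h1 : algebraMap F K a + θ ≠ 0)
    (h2 : algebraMap F K a - θ ≠ 0) : aeval θ (fac a d) =
      aeval (-θ) (fac a d) * ((algebraMap F K a + θ) / (algebraMap F K a - θ)) ^ d := by
  unfold fac
  split_ifs with hd
  · obtain ⟨n, rfl⟩ := Int.eq_ofNat_of_zero_le hd
    simp only [Int.natAbs_natCast, zpow_natCast, map_pow, map_add, aeval_C, aeval_X]
    rw [div_pow, ← sub_eq_add_neg]
    field_simp
  · obtain ⟨n, hn⟩ := Int.eq_ofNat_of_zero_le (a := -d) (by omega)
    have hd' : d = -(n : ℤ) := by omega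
    rw [hd']
    simp only [Int.natAbs_neg, Int.natAbs_natCast, zpow_natCast, zpow_neg, map_pow, map_sub,
      aeval_C, aeval_X]
    rw [div_pow, sub_neg_eq_add]
    field_simp

/-- unique factorisation argument -/
lemma rel_zero {ι : Type*} [Fintype ι] {h : ℕ} {θ : K}
    (hdeg : (minpoly F θ).degree = ((2 * h : ℕ) : WithBot ℕ)) {s : ι → F}
    (hs : Function.Injective s) (hs2 : ∀ i j, s i + s j ≠ 0) {d : ι → ℤ}
    (hnorm : ∑ i, |d i| ≤ 2 * h) (hev : Even (∑ i, |d i|))
    (h1 : ∀ i, algebraMap F K (s i) + θ ≠ 0) (h2 : ∀ i, algebraMap F K (s i) - θ ≠ 0)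
    (hrel : ∏ i, ((algebraMap F K (s i) + θ) / (algebraMap F K (s i) - θ)) ^ d i = 1) :
    d = 0 := by
  classical
  set P : F[X] := ∏ i, fac (s i) (d i) with hP
  have hPdeg : P.natDegree ≤ 2 * h := by
    refine (natDegree_prod_le _ _).trans ?_
    have h3 : ∑ i, (fac (s i) (d i)).natDegree ≤ ∑ i, (d i).natAbs :=
      Finset.sum_le_sum (fun i _ => natDegree_fac_le _ _)
    refine h3.trans ?_
    have h4 : ((∑ i, (d i).natAbs : ℕ) : ℤ) ≤ ((2 * h : ℕ) : ℤ) := by
      push_cast
      simpa using hnorm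
    exact_mod_cast h4
  have hPθ : aeval θ P = aeval (-θ) P := by
    rw [hP, map_prod, map_prod]
    calc ∏ i, aeval θ (fac (s i) (d i)) = ∏ i, (aeval (-θ) (fac (s i) (d i)) *
          ((algebraMap F K (s i) + θ) / (algebraMap F K (s i) - θ)) ^ d i) :=
          Finset.prod_congr rfl (fun i _ => aeval_fac _ _ (h1 i) (h2 i))
      _ = _ := by rw [Finset.prod_mul_distrib, hrel, mul_one]
  -- the difference
  have hD : P - P.comp (C (-1) * X) = 0 := by
    by_contra hne
    have h3 : aeval θ (P - P.comp (C (-1) * X)) = 0 := by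
      rw [map_sub, aeval_comp, map_mul, aeval_C, aeval_X, map_neg, map_one, neg_one_mul, hPθ,
        sub_self]
    have h4 := minpoly.degree_le_of_ne_zero F θ hne h3
    rw [hdeg] at h4
    have h5 : (P - P.comp (C (-1) * X)).degree < ((2 * h : ℕ) : WithBot ℕ) := by
      rw [degree_lt_iff_coeff_zero]
      intro m hm
      rw [coeff_sub, comp_C_mul_X_coeff]
      rcases Nat.even_or_odd m with hm2 | hm2
      · rw [hm2.neg_one_pow, mul_one, sub_self]
      · have : P.coeff m = 0 := by
          refine coeff_eq_zero_of_natDegree_lt (lt_of_le_of_lt hPdeg ?_)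
          rcases hm2 with ⟨r, hr⟩
          omega
        rw [this, zero_mul, sub_self]
    exact absurd h5 (not_lt_of_ge h4)
  have hsym : ∀ x : F, P.eval (-x) = P.eval x := by
    intro x
    have h3 : P = P.comp (C (-1) * X) := sub_eq_zero.mp hD
    have h4 := congrArg (eval x) h3
    rw [eval_comp, eval_mul, eval_C, eval_X, neg_one_mul] at h4
    exact h4.symm
  have hroot : ∀ x : F, P.eval x = 0 → ∃ i, (0 < d i ∧ s i + x = 0) ∨ (d i < 0 ∧ s i - x = 0) := by
    intro x hx
    rw [hP, eval_prod, Finset.prod_eq_zero_iff] at hx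
    obtain ⟨i, -, hi⟩ := hx
    exact ⟨i, eval_fac_eq_zero hi⟩
  funext i
  rcases lt_trichotomy (d i) 0 with hi | hi | hi
  · exfalso
    have h3 : P.eval (s i) = 0 := by
      rw [hP, eval_prod]
      exact Finset.prod_eq_zero (Finset.mem_univ i) (eval_fac_of_neg hi)
    rw [← hsym] at h3
    obtain ⟨j, h4 | h4⟩ := hroot _ h3
    · have : s j = s i := by linear_combination h4.2
      rw [hs this] at h4
      omega
    · exact hs2 j i (by linear_combination h4.2)
  · exact hi
  · exfalso
    have h3 : P.eval (-s i) = 0 := by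
      rw [hP, eval_prod]
      exact Finset.prod_eq_zero (Finset.mem_univ i) (eval_fac_of_pos hi)
    rw [hsym] at h3
    obtain ⟨j, h4 | h4⟩ := hroot _ h3
    · exact hs2 j i h4.2
    · have : s j = s i := by linear_combination h4.2
      rw [hs this] at h4
      omega

end Poly

section Main

variable {F : Type*} [Field F] [Fintype F] {K : Type*} [Field K] [Fintype K] [Algebra F K]

open IntermediateField in
/-- the element `θ` -/
lemma exists_theta {h : ℕ} (hh : 1 ≤ h) (hq : Odd (Fintype.card F))
    (hK : Module.finrank F K = 2 * h) {g : Kˣ} (hg : ∀ x, x ∈ Subgroup.zpowers g) :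
    ∃ θ : K, θ ^ (Fintype.card F ^ h) = -θ ∧
      (minpoly F θ).degree = ((2 * h : ℕ) : WithBot ℕ) := by
  classical
  set q := Fintype.card F with hqdef
  have hq1 : 1 < q := Fintype.one_lt_card
  set M := q ^ h with hM
  have hM1 : 1 < M := Nat.one_lt_pow (by omega) hq1
  have hModd : Odd M := hq.pow
  obtain ⟨m, hm⟩ := hModd
  have hm0 : 0 < m := by omega
  have hcardK : Fintype.card K = M ^ 2 := by
    rw [Module.card_eq_pow_finrank (K := F) (V := K), hK, hM, ← pow_mul, mul_comm]
  have hord : orderOf g = M ^ 2 - 1 := by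
    rw [orderOf_eq_card_of_forall_mem_zpowers hg, Nat.card_eq_fintype_card, Fintype.card_units,
      hcardK]
  have hM2 : M ^ 2 - 1 = (m + 1) * (4 * m) := by
    rw [hm]
    have : (2 * m + 1) ^ 2 = (m + 1) * (4 * m) + 1 := by ring
    rw [this, Nat.add_sub_cancel]
  -- `θ = g ^ (m + 1)` with `m + 1 = (M + 1) / 2`
  have hz : ((g ^ ((m + 1) * (2 * m)) : Kˣ) : K) = -1 := by
    have h1 : (((g ^ ((m + 1) * (2 * m)) : Kˣ) : K)) ^ 2 = 1 := by
      have : (g ^ ((m + 1) * (2 * m))) ^ 2 = 1 := by
        rw [← pow_mul]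
        have : (m + 1) * (2 * m) * 2 = orderOf g := by rw [hord, hM2]; ring
        rw [this, pow_orderOf_eq_one]
      have := congrArg (fun u : Kˣ => (u : K)) this
      simpa using this
    have h2 : (((g ^ ((m + 1) * (2 * m)) : Kˣ) : K) - 1) *
        (((g ^ ((m + 1) * (2 * m)) : Kˣ) : K) + 1) = 0 := by linear_combination h1
    rcases mul_eq_zero.mp h2 with h3 | h3
    · exfalso
      have h4 : g ^ ((m + 1) * (2 * m)) = 1 := Units.ext (by rw [Units.val_one]; exact sub_eq_zero.mp h3)
      have h5 := orderOf_dvd_of_pow_eq_one h4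
      rw [hord, hM2] at h5
      have h6 := Nat.le_of_dvd (by positivity) h5
      have : (m + 1) * (2 * m) < (m + 1) * (4 * m) := Nat.mul_lt_mul_of_pos_left (by omega) (by omega)
      omega
    · linear_combination h3
  refine ⟨((g ^ (m + 1) : Kˣ) : K), ?_, ?_⟩
  · rw [hm, pow_succ]
    have : (((g ^ (m + 1) : Kˣ) : K)) ^ (2 * m) = -1 := by
      rw [← hz, Units.val_pow_eq_pow_val, Units.val_pow_eq_pow_val, ← pow_mul]
    rw [this]
    ring
  · set θ : K := ((g ^ (m + 1) : Kˣ) : K) with hθ
    have hint : IsIntegral F θ := Algebra.IsIntegral.isIntegral θ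
    have hfin : Module.finrank F F⟮θ⟯ = (minpoly F θ).natDegree := adjoin.finrank hint
    let _ : Fintype F⟮θ⟯ := Fintype.ofFinite _
    have hcard : Fintype.card F⟮θ⟯ = q ^ (minpoly F θ).natDegree := by
      rw [Module.card_eq_pow_finrank (K := F) (V := F⟮θ⟯), hfin]
    have hpow : θ ^ (q ^ (minpoly F θ).natDegree) = θ := by
      have h1 := FiniteField.pow_card (AdjoinSimple.gen F θ)
      rw [hcard] at h1
      have h2 := congrArg (algebraMap F⟮θ⟯ K) h1
      rw [map_pow, AdjoinSimple.algebraMap_gen] at h2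
      exact h2
    have hdpos : 0 < (minpoly F θ).natDegree := minpoly.natDegree_pos hint
    have hq2 : 1 < q ^ (minpoly F θ).natDegree := Nat.one_lt_pow hdpos.ne' hq1
    have hu : (g ^ (m + 1)) ^ (q ^ (minpoly F θ).natDegree - 1) = 1 := by
      have h1 : (g ^ (m + 1)) ^ (q ^ (minpoly F θ).natDegree - 1) * g ^ (m + 1) = g ^ (m + 1) := by
        rw [← pow_succ, Nat.sub_add_cancel hq2.le]
        refine Units.ext ?_
        rw [Units.val_pow_eq_pow_val]
        exact hpow
      exact mul_eq_right.mp h1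
    have hdvd : 4 * m ∣ q ^ (minpoly F θ).natDegree - 1 := by
      rw [← pow_mul] at hu
      have h5 := orderOf_dvd_of_pow_eq_one hu
      rw [hord, hM2] at h5
      exact Nat.dvd_of_mul_dvd_mul_left (by omega) h5
    have hle := Nat.le_of_dvd (by omega) hdvd
    have hlt : q ^ h < q ^ (minpoly F θ).natDegree := by
      rw [← hM]
      omega
    have hlt' : h < (minpoly F θ).natDegree := (Nat.pow_lt_pow_iff_right hq1).mp hlt
    have hmul := Module.finrank_mul_finrank F F⟮θ⟯ K
    rw [hfin, hK] at hmul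
    have hc : Module.finrank F⟮θ⟯ K = 1 := by
      have hc1 : Module.finrank F⟮θ⟯ K < 2 := by
        by_contra hc
        push Not at hc
        have : (minpoly F θ).natDegree * 2 ≤ (minpoly F θ).natDegree * Module.finrank F⟮θ⟯ K :=
          Nat.mul_le_mul_left _ hc
        omega
      have hc2 : 0 < Module.finrank F⟮θ⟯ K := Module.finrank_pos
      omega
    rw [hc, mul_one] at hmul
    rw [degree_eq_natDegree (minpoly.ne_zero hint), hmul]

/-- a half system of the nonzero elements -/
lemma exists_half (hq : Odd (Fintype.card F)) : ∃ s : Fin ((Fintype.card F - 1) / 2) → F,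
    Function.Injective s ∧ ∀ i j, s i + s j ≠ 0 := by
  classical
  let e := Fintype.equivFin F
  let S : Finset F := Finset.univ.filter (fun a => e a < e (-a))
  have h2 : (2 : F) ≠ 0 := by
    intro h0
    obtain ⟨p, hp⟩ := CharP.exists F
    have h3 : p ∣ 2 := (CharP.cast_eq_zero_iff F p 2).mp (by exact_mod_cast h0)
    have h4 : p = 2 := by
      rcases (Nat.dvd_prime Nat.prime_two).mp h3 with h5 | h5
      · exact absurd h5 (CharP.char_ne_one F p)
      · exact h5
    subst h4
    have h5 := FiniteField.even_card_of_char_two (F := F) (ringChar.eq_iff.mpr hp)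
    obtain ⟨r, hr⟩ := hq
    omega
  have hS : ∀ a ∈ S, ∀ b ∈ S, a + b ≠ 0 := by
    intro a ha b hb hab
    have hb' : b = -a := by linear_combination hab
    rw [hb'] at hb
    have h3 := (Finset.mem_filter.mp ha).2
    have h4 := (Finset.mem_filter.mp hb).2
    rw [neg_neg] at h4
    exact absurd h3 (not_lt_of_gt h4)
  have hcard : S.card + S.card + 1 = Fintype.card F := by
    have h3 : (Finset.univ : Finset F) = insert 0 (S ∪ S.image (fun a => -a)) := by
      ext a
      simp only [Finset.mem_univ, true_iff, Finset.mem_insert, Finset.mem_union, Finset.mem_image]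
      by_cases ha : a = 0
      · exact Or.inl ha
      · right
        have hne : e a ≠ e (-a) := by
          intro h4
          have h5 : a = -a := e.injective h4
          have h6 : 2 * a = 0 := by linear_combination h5
          rcases mul_eq_zero.mp h6 with h7 | h7
          · exact h2 h7
          · exact ha h7
        rcases lt_or_gt_of_ne hne with h4 | h4
        · exact Or.inl (Finset.mem_filter.mpr ⟨Finset.mem_univ _, h4⟩)
        · refine Or.inr ⟨-a, Finset.mem_filter.mpr ⟨Finset.mem_univ _, ?_⟩, neg_neg a⟩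
          rw [neg_neg]
          exact h4
    have h4 : (0 : F) ∉ S ∪ S.image (fun a => -a) := by
      intro h5
      rcases Finset.mem_union.mp h5 with h6 | h6
      · have := (Finset.mem_filter.mp h6).2
        rw [neg_zero] at this
        exact absurd this (lt_irrefl _)
      · obtain ⟨a, ha, ha'⟩ := Finset.mem_image.mp h6
        have h7 : a = 0 := neg_eq_zero.mp ha'
        have := (Finset.mem_filter.mp ha).2
        rw [h7, neg_zero] at this
        exact absurd this (lt_irrefl _)
    have h5 : Disjoint S (S.image (fun a => -a)) := by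
      rw [Finset.disjoint_left]
      intro a ha ha'
      obtain ⟨b, hb, hb'⟩ := Finset.mem_image.mp ha'
      exact hS a ha b hb (by rw [← hb']; ring)
    have h6 := congrArg Finset.card h3
    rw [Finset.card_insert_of_notMem h4, Finset.card_union_of_disjoint h5,
      Finset.card_image_of_injective _ neg_injective, Finset.card_univ] at h6
    omega
  have hS2 : S.card = (Fintype.card F - 1) / 2 := by omega
  let ε := S.equivFinOfCardEq hS2
  refine ⟨fun i => (ε.symm i : F), ?_, fun i j => hS _ (ε.symm i).2 _ (ε.symm j).2⟩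
  intro i j hij
  exact ε.symm.injective (Subtype.ext hij)

/-- **The construction.** -/
theorem exists_lat {h : ℕ} (hh : 1 ≤ h) (hq : Odd (Fintype.card F))
    (hK : Module.finrank F K = 2 * h) :
    ∃ e : Fin ((Fintype.card F - 1) / 2) → ZMod (Fintype.card F ^ h + 1),
      Lat (Fintype.card F ^ h + 1) h e := by
  classical
  obtain ⟨g, hg⟩ := IsCyclic.exists_generator (α := Kˣ)
  obtain ⟨θ, hθ, hdeg⟩ := exists_theta hh hq hK hg
  obtain ⟨s, hs, hs2⟩ := exists_half hq
  have hq1 : 1 < Fintype.card F := Fintype.one_lt_card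
  set M := Fintype.card F ^ h with hM
  have hM1 : 1 < M := Nat.one_lt_pow (by omega) hq1
  have hcardK : Fintype.card K = M ^ 2 := by
    rw [Module.card_eq_pow_finrank (K := F) (V := K), hK, hM, ← pow_mul, mul_comm]
  have hord : orderOf g = (M + 1) * (M - 1) := by
    rw [orderOf_eq_card_of_forall_mem_zpowers hg, Nat.card_eq_fintype_card, Fintype.card_units,
      hcardK]
    obtain ⟨m, hm⟩ : ∃ m, M = m + 1 := ⟨M - 1, by omega⟩
    rw [hm, Nat.add_sub_cancel]
    have : (m + 1) ^ 2 = (m + 1 + 1) * m + 1 := by ring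
    rw [this, Nat.add_sub_cancel]
  -- `θ` is not in the image of `F`
  have hθF : ∀ a : F, θ ≠ algebraMap F K a := by
    intro a ha
    have h1 : (X - C a : F[X]) ≠ 0 := X_sub_C_ne_zero a
    have h2 := minpoly.degree_le_of_ne_zero F θ h1 (by
      rw [map_sub, aeval_X, aeval_C, ha, sub_self])
    rw [hdeg, degree_X_sub_C] at h2
    have h3 : 2 * h ≤ 1 := by exact_mod_cast h2
    omega
  have h1 : ∀ i, algebraMap F K (s i) + θ ≠ 0 := by
    intro i h0
    refine hθF (-s i) ?_
    rw [map_neg]
    linear_combination h0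
  have h2 : ∀ i, algebraMap F K (s i) - θ ≠ 0 := by
    intro i h0
    refine hθF (s i) ?_
    linear_combination -h0
  -- Frobenius
  let σ := (FiniteField.frobeniusAlgHom F K) ^ h
  have hσ : ∀ x : K, σ x = x ^ M := by
    intro x
    simp only [σ]
    rw [AlgHom.coe_pow, FiniteField.coe_frobeniusAlgHom, pow_iterate]
  -- logarithms
  have hlog : ∀ i, ∃ e : ℤ, g ^ e = Units.mk0 _ (h1 i) := fun i =>
    Subgroup.mem_zpowers_iff.mp (hg _)
  choose e he using hlog
  refine ⟨fun i => (e i : ZMod (M + 1)), ?_⟩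
  intro d hev hle hrel
  have hdvd : ((M + 1 : ℕ) : ℤ) ∣ ∑ i, d i * e i := by
    rw [← ZMod.intCast_zmod_eq_zero_iff_dvd]
    push_cast
    push_cast at hrel
    exact hrel
  set W : Kˣ := ∏ i, (Units.mk0 _ (h1 i)) ^ d i with hW
  have hW1 : W = g ^ (∑ i, d i * e i) := by
    rw [hW]
    have : ∀ S : Finset (Fin ((Fintype.card F - 1) / 2)), ∏ i ∈ S, (Units.mk0 _ (h1 i)) ^ d i =
        g ^ (∑ i ∈ S, d i * e i) := by
      intro S
      induction S using Finset.induction_on with
      | empty => simp
      | insert i S hi ih =>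
        rw [Finset.prod_insert hi, Finset.sum_insert hi, zpow_add, ih, ← he i, ← zpow_mul,
          mul_comm (e i) (d i)]
    exact this _
  have hW2 : W ^ (M - 1) = 1 := by
    rw [hW1, ← zpow_natCast, ← zpow_mul]
    obtain ⟨c, hc⟩ := hdvd
    rw [hc]
    have : ((M + 1 : ℕ) : ℤ) * c * ((M - 1 : ℕ) : ℤ) = ((orderOf g : ℕ) : ℤ) * c := by
      rw [hord]
      push_cast
      ring
    rw [this, zpow_mul, zpow_natCast, pow_orderOf_eq_one, one_zpow]
  have hW3 : ((W : Kˣ) : K) ^ M = W := by
    have h3 : W ^ M = W := by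
      obtain ⟨m, hm⟩ : ∃ m, M = m + 1 := ⟨M - 1, by omega⟩
      rw [hm, Nat.add_sub_cancel] at hW2
      rw [hm, pow_succ, hW2, one_mul]
    have := congrArg (fun u : Kˣ => (u : K)) h3
    simpa using this
  have hW4 : ((W : Kˣ) : K) = ∏ i, (algebraMap F K (s i) + θ) ^ d i := by
    rw [hW, Units.coe_prod]
    refine Finset.prod_congr rfl (fun i _ => ?_)
    rw [Units.val_zpow_eq_zpow_val, Units.val_mk0]
  have hW5 : σ ((W : Kˣ) : K) = ∏ i, (algebraMap F K (s i) - θ) ^ d i := by
    rw [hW4, map_prod]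
    refine Finset.prod_congr rfl (fun i _ => ?_)
    rw [map_zpow₀, map_add, AlgHom.commutes, hσ θ, hθ, ← sub_eq_add_neg]
  refine rel_zero hdeg hs hs2 hle hev h1 h2 ?_
  have h3 : ∏ i, (algebraMap F K (s i) + θ) ^ d i = ∏ i, (algebraMap F K (s i) - θ) ^ d i := by
    rw [← hW4, ← hW5, hσ, hW3]
  have h4 : ∀ i, ((algebraMap F K (s i) + θ) / (algebraMap F K (s i) - θ)) ^ d i =
      (algebraMap F K (s i) + θ) ^ d i / (algebraMap F K (s i) - θ) ^ d i := fun i => div_zpow _ _ _
  simp only [h4]
  rw [Finset.prod_div_distrib, h3]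
  refine div_self (Finset.prod_ne_zero_iff.mpr (fun i _ => zpow_ne_zero _ (h2 i)))

end Main

end Pool.Agent.SignedBh
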