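import Mathlib
import Pool.Agent.SignedBh.Bose

/-!
Lower bounds for all `n`, and the order of magnitude of `sigmaPM n h` for fixed `h`.
-/

namespace Pool.Agent.SignedBh

open Finset

set_option linter.unusedSectionVars false
set_option linter.unusedSimpArgs false
set_option linter.unusedVariables false

/-- change of modulus -/
lemma Lat.lift {ι : Type*} [Fintype ι] {N n h : ℕ} (hN : 0 < N) (hn : h * N < n) {e : ι → ZMod N}
    (he : Lat N h e) : Lat n h (fun i => ((e i).valMinAbs : ZMod n)) := by
  have : NeZero N := ⟨hN.ne'⟩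
  intro d hev hle hrel
  have h1 : ((∑ i, d i * (e i).valMinAbs : ℤ) : ZMod n) = 0 := by
    push_cast
    exact hrel
  rw [ZMod.intCast_zmod_eq_zero_iff_dvd] at h1
  have h2 : |∑ i, d i * (e i).valMinAbs| * 2 ≤ 2 * h * N := by
    calc |∑ i, d i * (e i).valMinAbs| * 2 ≤ (∑ i, |d i * (e i).valMinAbs|) * 2 := by
          have := Finset.abs_sum_le_sum_abs (fun i => d i * (e i).valMinAbs) Finset.univ
          linarith
      _ = ∑ i, |d i| * (|(e i).valMinAbs| * 2) := by
          rw [Finset.sum_mul]
          refine Finset.sum_congr rfl (fun i _ => ?_)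
          rw [abs_mul]
          ring
      _ ≤ ∑ i, |d i| * N := by
          refine Finset.sum_le_sum (fun i _ => mul_le_mul_of_nonneg_left ?_ (abs_nonneg _))
          have h3 := ZMod.natAbs_valMinAbs_le (e i)
          have h4 : |(e i).valMinAbs| = (((e i).valMinAbs.natAbs : ℕ) : ℤ) := by simp
          rw [h4]
          have h5 : (e i).valMinAbs.natAbs * 2 ≤ N := by omega
          exact_mod_cast h5
      _ = (∑ i, |d i|) * N := by rw [Finset.sum_mul]
      _ ≤ 2 * h * N := mul_le_mul_of_nonneg_right hle (by positivity)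
  have h3 : |∑ i, d i * (e i).valMinAbs| < n := by
    have h4 : ((h * N : ℕ) : ℤ) < n := by exact_mod_cast hn
    push_cast at h4
    linarith
  have h4 := Int.eq_zero_of_abs_lt_dvd h1 h3
  refine he d hev hle ?_
  have h5 : ((∑ i, d i * (e i).valMinAbs : ℤ) : ZMod N) = 0 := by
    rw [h4, Int.cast_zero]
  rw [← h5]
  push_cast
  exact Finset.sum_congr rfl (fun i _ => by simp)

/-- **Lower bound from odd prime powers.** -/
theorem prime_power {q h n : ℕ} (hq : IsPrimePow q) (hodd : Odd q) (hh : 1 ≤ h)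
    (hn : n = q ^ h + 1 ∨ h * (q ^ h + 1) < n) : (q - 1) / 2 ≤ sigmaPM n h := by
  classical
  obtain ⟨p, k, hp, hk, rfl⟩ := (isPrimePow_nat_iff q).mp hq
  have : Fact p.Prime := ⟨hp⟩
  let F := GaloisField p k
  let _ : Fintype F := Fintype.ofFinite F
  have hcard : Fintype.card F = p ^ k := by
    rw [← Nat.card_eq_fintype_card]
    exact GaloisField.card p k hk.ne'
  have : NeZero (2 * h) := ⟨by omega⟩
  let K := FiniteField.Extension F p (2 * h)
  let _ : Fintype K := Fintype.ofFinite K
  have hK : Module.finrank F K = 2 * h := FiniteField.finrank_extension F p (2 * h)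
  obtain ⟨e, he⟩ := exists_lat (F := F) (K := K) hh (by rw [hcard]; exact hodd) hK
  rcases hn with hn | hn
  · have h1 := he.le_sigmaPM hh (Nat.succ_pos _)
    rw [Fintype.card_fin, hcard, ← hn] at h1
    exact h1
  · have h2 := (he.lift (Nat.succ_pos _) (by rw [hcard]; exact hn)).le_sigmaPM hh (by omega)
    rw [Fintype.card_fin, hcard] at h2
    exact h2

/-- a lower bound for all `n` -/
theorem le_of_lt {y h n : ℕ} (hy : 1 ≤ y) (hh : 1 ≤ h) (hn : h * ((4 * y) ^ h + 1) < n) :
    y ≤ sigmaPM n h := by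
  obtain ⟨p, hp, h1, h2⟩ := Nat.exists_prime_lt_and_le_two_mul (2 * y) (by omega)
  have hodd : Odd p := hp.odd_of_ne_two (by omega)
  have h3 := prime_power (q := p) (h := h) (n := n) hp.isPrimePow hodd hh (Or.inr (by
    refine lt_of_le_of_lt (Nat.mul_le_mul_left h ?_) hn
    have : p ^ h ≤ (4 * y) ^ h := Nat.pow_le_pow_left (by omega) h
    omega))
  omega

/-- an upper bound -/
theorem pow_le {h n : ℕ} (hn : 0 < n) : (sigmaPM n h) ^ h ≤ h.factorial * n := by
  classical
  have : NeZero n := ⟨hn.ne'⟩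
  obtain ⟨A, hA1, hA2⟩ := exists_max (h := h) hn
  have hinj : Function.Injective (fun s : Sym A h => ((s : Multiset A).map (fun a : A => (a : ZMod n))).sum) := by
    intro s t hst
    have key : ∀ s : Sym A h, ∑ a : A, |(((s : Multiset A).count a : ℕ) : ℤ)| = h := by
      intro s
      have h1 : ∑ a : A, (s : Multiset A).count a = h := by
        have h3 := Multiset.sum_count_eq_card (s := (Finset.univ : Finset A)) (m := (s : Multiset A))
          (fun a _ => Finset.mem_univ a)
        rw [h3]
        exact s.2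
      have h2 : ∀ a : A, |(((s : Multiset A).count a : ℕ) : ℤ)| = (((s : Multiset A).count a : ℕ) : ℤ) :=
        fun a => Nat.abs_cast _
      simp only [h2]
      exact_mod_cast h1
    have key2 : ∀ s : Sym A h, ((s : Multiset A).map (fun a : A => (a : ZMod n))).sum =
        ∑ a : A, ((((s : Multiset A).count a : ℕ) : ℤ) : ZMod n) * (a : ZMod n) := by
      intro s
      have h1 : ((s : Multiset A).map (fun a : A => (a : ZMod n))).sum =
          ∑ a ∈ (s : Multiset A).toFinset, (s : Multiset A).count a • (a : ZMod n) :=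
        Finset.sum_multiset_map_count (s : Multiset A) (fun a : A => (a : ZMod n))
      have h2 : ∑ a ∈ (s : Multiset A).toFinset, (s : Multiset A).count a • (a : ZMod n) =
          ∑ a : A, (s : Multiset A).count a • (a : ZMod n) := by
        refine Finset.sum_subset (Finset.subset_univ _) (fun a _ ha => ?_)
        rw [Multiset.mem_toFinset] at ha
        rw [Multiset.count_eq_zero_of_notMem ha, zero_smul]
      rw [h1, h2]
      refine Finset.sum_congr rfl (fun a _ => ?_)
      rw [nsmul_eq_mul]
      push_cast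
      rfl
    have h1 := hA2 (fun a => (((s : Multiset A).count a : ℕ) : ℤ))
      (fun a => (((t : Multiset A).count a : ℕ) : ℤ)) (key s) (key t) (by
        rw [← key2, ← key2]
        exact hst)
    refine Sym.coe_injective (Multiset.ext.mpr (fun a => ?_))
    have h2 : (((s : Multiset A).count a : ℕ) : ℤ) = (((t : Multiset A).count a : ℕ) : ℤ) :=
      congrFun h1 a
    exact_mod_cast h2
  have h1 := Fintype.card_le_of_injective _ hinj
  rw [Sym.card_sym_eq_multichoose, ZMod.card, Fintype.card_coe, hA1] at h1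
  rw [Nat.multichoose_eq] at h1
  rcases Nat.eq_zero_or_pos h with h0 | h0
  · subst h0
    simp
    omega
  · have h2 : (sigmaPM n h + h - 1 + 1 - h) ^ h ≤ (sigmaPM n h + h - 1).descFactorial h :=
      Nat.pow_sub_le_descFactorial _ _
    have h3 : sigmaPM n h + h - 1 + 1 - h = sigmaPM n h := by omega
    rw [h3, Nat.descFactorial_eq_factorial_mul_choose] at h2
    exact h2.trans (Nat.mul_le_mul_left _ h1)

open Asymptotics Filter in
/-- **Order of magnitude.** -/
theorem isTheta {h : ℕ} (hh : 1 ≤ h) :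
    (fun n : ℕ => (sigmaPM n h : ℝ)) =Θ[atTop] (fun n : ℕ => (n : ℝ) ^ (1 / (h : ℝ))) := by
  have hh0 : h ≠ 0 := by omega
  have hexp : (0 : ℝ) ≤ (h : ℝ)⁻¹ := by positivity
  constructor
  · refine IsBigO.of_bound ((h.factorial : ℝ) ^ ((h : ℝ)⁻¹)) ?_
    filter_upwards [eventually_gt_atTop 0] with n hn
    have h1 : ((sigmaPM n h : ℝ)) ^ h ≤ (h.factorial : ℝ) * n := by
      exact_mod_cast pow_le (h := h) hn
    rw [one_div, Real.norm_of_nonneg (by positivity), Real.norm_of_nonneg (by positivity)]
    rw [← Real.mul_rpow (by positivity) (by positivity),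
      ← Real.pow_rpow_inv_natCast (Nat.cast_nonneg (sigmaPM n h)) hh0]
    exact Real.rpow_le_rpow (by positivity) h1 hexp
  · refine IsBigO.of_bound (9 * (h : ℝ) ^ ((h : ℝ)⁻¹)) ?_
    filter_upwards [eventually_gt_atTop (2 * h)] with n hn
    have h1 : 1 ≤ sigmaPM n h := (one_le_iff (by omega) hh).mpr (fun hd => by
      have := Nat.le_of_dvd (by omega) hd
      omega)
    have h2 : n ≤ h * ((4 * (sigmaPM n h + 1)) ^ h + 1) := by
      by_contra hc
      push Not at hc
      have := le_of_lt (y := sigmaPM n h + 1) (by omega) hh hc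
      omega
    have h3 : (4 * (sigmaPM n h + 1)) ^ h + 1 ≤ (9 * sigmaPM n h) ^ h := by
      have h4 : (4 * (sigmaPM n h + 1)) ^ h < (4 * (sigmaPM n h + 1) + 1) ^ h :=
        Nat.pow_lt_pow_left (by omega) hh0
      have h5 : (4 * (sigmaPM n h + 1) + 1) ^ h ≤ (9 * sigmaPM n h) ^ h :=
        Nat.pow_le_pow_left (by omega) h
      omega
    have h4 : n ≤ h * (9 * sigmaPM n h) ^ h := h2.trans (Nat.mul_le_mul_left h h3)
    have h5 : (n : ℝ) ≤ (h : ℝ) * (9 * (sigmaPM n h : ℝ)) ^ h := by exact_mod_cast h4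
    rw [one_div, Real.norm_of_nonneg (by positivity), Real.norm_of_nonneg (by positivity)]
    calc (n : ℝ) ^ ((h : ℝ)⁻¹) ≤ ((h : ℝ) * (9 * (sigmaPM n h : ℝ)) ^ h) ^ ((h : ℝ)⁻¹) :=
          Real.rpow_le_rpow (by positivity) h5 hexp
      _ = (h : ℝ) ^ ((h : ℝ)⁻¹) * (9 * (sigmaPM n h : ℝ)) := by
          rw [Real.mul_rpow (by positivity) (by positivity),
            Real.pow_rpow_inv_natCast (by positivity) hh0]
      _ = _ := by ring

end Pool.Agent.SignedBh
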