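import Mathlib
import Pool.Agent.SignedBh.Three

/-!
The packing bound for signed `B_h` sets of any size at least two.
-/

namespace Pool.Agent.SignedBh

open Finset

/-- the integer vectors of norm `j` -/
noncomputable def sph (m j : ℕ) : Finset (Fin m → ℤ) :=
  (Fintype.piFinset (fun _ : Fin m => Finset.Icc (-(j : ℤ)) j)).filter (fun v => ∑ i, |v i| = j)

lemma mem_sph {m j : ℕ} {v : Fin m → ℤ} : v ∈ sph m j ↔ ∑ i, |v i| = j := by
  unfold sph
  rw [Finset.mem_filter, and_iff_right_iff_imp, Fintype.mem_piFinset]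
  intro h i
  rw [Finset.mem_Icc, ← abs_le, ← h]
  exact Finset.single_le_sum (f := fun i => |v i|) (fun i _ => abs_nonneg _) (Finset.mem_univ i)

lemma card_sph (m j : ℕ) : Nat.card {v : Fin m → ℤ // ∑ i, |v i| = j} = (sph m j).card :=
  Nat.subtype_card (sph m j) (fun _ => mem_sph)

/-- **Packing bound.** -/
theorem packing {n h m : ℕ} (hn : 0 < n) (hm : 2 ≤ m) (hσ : m ≤ sigmaPM n h) :
    ∑ j ∈ Finset.range (h + 1) with Even (h + j),
      Nat.card {v : Fin m → ℤ // ∑ i, |v i| = j} ≤ n := by
  classical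
  have : NeZero n := ⟨hn.ne'⟩
  obtain ⟨e, he⟩ := exists_fam hn hσ hm
  simp only [card_sph]
  rw [← Finset.card_biUnion]
  · have hle : (Finset.univ : Finset (ZMod n)).card = n := by
      rw [Finset.card_univ, ZMod.card]
    rw [← hle]
    refine Finset.card_le_card_of_injOn (fun v => ∑ i, (v i : ZMod n) * e i)
      (fun _ _ => Finset.mem_coe.mpr (Finset.mem_univ _)) ?_
    intro v hv w hw hvw
    obtain ⟨j, hj, hv'⟩ := Finset.mem_biUnion.mp (Finset.mem_coe.mp hv)
    obtain ⟨k, hk, hw'⟩ := Finset.mem_biUnion.mp (Finset.mem_coe.mp hw)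
    rw [Finset.mem_filter, Finset.mem_range] at hj hk
    rw [mem_sph] at hv' hw'
    refine he.inj ?_ ?_ ?_ hvw
    · rw [hv']
      exact_mod_cast (by omega : j ≤ h)
    · rw [hw']
      exact_mod_cast (by omega : k ≤ h)
    · rw [hv', hw']
      have h1 := hj.2.add hk.2
      have h2 : Even (j + k) := by
        rw [Nat.even_iff] at h1 ⊢
        omega
      exact_mod_cast h2
  · intro j _ k _ hjk
    rw [Function.onFun, Finset.disjoint_left]
    intro v hv hw
    rw [mem_sph] at hv hw
    rw [hv] at hw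
    exact hjk (by exact_mod_cast hw)

end Pool.Agent.SignedBh
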